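import Pool.Agent.H57.CN.Targets2

/-!
# All flags of the names structure have one type
-/

set_option autoImplicit false
set_option linter.unusedVariables false

namespace Pool.Agent.H36.CN

open Pool.Agent.H68.BP Pool.Agent.H58.SF Pool.Agent.H53.NR
open Pool.Agent.H53.GC (strOn sigOf)
open Pool.Agent.H57.AR (tp ty Ty)
open Pool.Agent.H57.LH (tp_strOn tp_iff)
open Pool.Agent.H44.FB (Bl)
open Pool.Agent.H72.CH
open Pool.Agent.H57.CN
open Function

section aux

variable {V : Type} {ρ : Sig} {𝔹 : Str ρ V} {m R : ℕ} {lv : V → V → ℕ}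
variable {𝔻 : Str (NS ρ m R) ℕ} {st : ℕ → Fin m} {β : (Fin m → ℕ) → V} {c : Fin m → ℕ}

/-- the class of a partial flag of `w` contains the element of `w` -/
theorem lv_bk (hN : NmB 𝔹 m lv R 𝔻 st β c) (w : Fl st) (h : Fin m) (z : Fin m → Fin m)
    (hz : ∀ i, i ≤ h → z i = i) :
    (h : ℕ) + 1 ≤ lv (bk β c (fun i => w.1 (z i)) h) (β w.1) := by
  have hf : IsFl st (fun i => if i ≤ h then w.1 (z i) else c i) := by
    intro i
    by_cases hi : i ≤ h
    · show st (if i ≤ h then w.1 (z i) else c i) = i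
      rw [if_pos hi, w.2, hz i hi]
    · show st (if i ≤ h then w.1 (z i) else c i) = i
      rw [if_neg hi]
      exact hN.cst i
  refine (hN.exa _ _ hf w.2 (fun _ => trivial) (fun _ => trivial) ((h : ℕ) + 1) h.2).2 ?_
  intro i hi
  have hi' : i ≤ h := Nat.lt_succ_iff.1 hi
  show (if i ≤ h then w.1 (z i) else c i) = w.1 i
  rw [if_pos hi', hz i hi']

/-- one direction for the relations of types -/
theorem nr_flag (hV : HV 𝔹 m lv) (hN : NmB 𝔹 m lv R 𝔻 st β c) (w w' : Fl st)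
    (p : (Fin R → Fin m) × Ty ρ (Fin R)) (z : Fin R × Fin m → Fin m)
    (h : NR 𝔹 lv st (bk β c) (Sum.inr p) (fun q => w.1 (z q))) :
    NR 𝔹 lv st (bk β c) (Sum.inr p) (fun q => w'.1 (z q)) := by
  obtain ⟨h1, x, h2, h3⟩ := h
  have hz : ∀ a i, i ≤ p.1 a → z (a, i) = i := fun a i hi => by
    have h4 := h1 a i hi
    rw [w.2] at h4
    exact h4
  have hc : tp 𝔹 (fun _ : Fin R => β w.1) = tp 𝔹 (fun _ : Fin R => β w'.1) := by
    refine tp_iff.2 ⟨fun a b => iff_of_true rfl rfl, fun l v => ?_⟩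
    exact iff_of_eq (congrFun (hV.one (β w.1) (β w'.1)) l)
  obtain ⟨x', h5, h6⟩ := clt hV (fun a => (p.1 a : ℕ) + 1) _ _ x hc fun a =>
    le_trans (le_min (h2 a) (lv_bk hN w (p.1 a) (fun i => z (a, i)) (hz a)))
      (hV.lev.pl.ult _ _ _)
  refine ⟨fun a i hi => ?_, x', fun a => ?_, h6.trans h3⟩
  · rw [w'.2]
    exact hz a i hi
  · refine le_trans (le_min (h5 a) ?_) (hV.lev.pl.ult _ _ _)
    rw [hV.lev.pl.sym]
    exact lv_bk hN w' (p.1 a) (fun i => z (a, i)) (hz a)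

end aux

/-- **All flags have one type.** -/
theorem pf_FLO : T_FLO := by
  intro V ρ 𝔹 m lv hV hm R 𝔻 st β c hN w w'
  rw [hN.str]
  refine tp_strOn.2 ⟨fun a b => ?_, fun s z => ?_⟩
  · have key : ∀ u : Fl st, u.1 a = u.1 b ↔ a = b := fun u =>
      ⟨fun h => by rw [← u.2 a, ← u.2 b, h], fun h => by rw [h]⟩
    rw [key w, key w']
  · rcases s with i | p
    · show st (w.1 (z ())) = i ↔ st (w'.1 (z ())) = i
      rw [w.2, w'.2]
    · exact ⟨nr_flag hV hN w w' p z, nr_flag hV hN w' w p z⟩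

end Pool.Agent.H36.CN
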